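import Pool.Agent.H.MP_10cf3c_an.C

set_option autoImplicit false

namespace Pool.Agent.Results.MP_10cf3c_an.No

open Pool.Agent.H.MP_10cf3c_an

/-- On every separable infinite-dimensional complex Hilbert space there is (in ZFC) a maximal
filter of projections of the Calkin algebra that does not lift. -/
theorem result {H : Type*} [NormedAddCommGroup H] [InnerProductSpace ℂ H] [CompleteSpace H]
    [TopologicalSpace.SeparableSpace H] (h : ¬ FiniteDimensional ℂ H) :
    ∃ F : Set (Calkin H), IsMaximalFilter F ∧ ¬ Lifts F := by
  obtain ⟨b⟩ := exists_basis h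
  exact main b

end Pool.Agent.Results.MP_10cf3c_an.No
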